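import Pool.Agent.Q127.OD.Crit

/-!
# MP_9415b6_co, Q1 (full answer)

`(ℤ_n, 𝓑_k^x)`, the points `ℤ_n` with the `k`-subsets of sum `x`, is a `1`-design exactly in the
following cases (`1 ≤ k ≤ n`, `x` an integer, `σ = n(n-1)/2`):

* `k = n` and `n ∣ x - σ`;
* `k < n`, and for every prime `p` with `p^(c+1) ∣ n` and `p^c ∣ x`, where `c = v_p(k)`, one of the
  following holds, with `P = p^(c+1)` and `h = gcd(k, n) / p^c`:
  (A) `k < P` and `h ∤ x`;
  (B) `n - k < P` and `h ∤ x - σ`;
  (C) `n = P h`, `P < k < 2 P` and `h ∣ x`;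
  (D) `n = P h`, `P < n - k < 2 P` and `h ∣ x - σ`.
-/

set_option autoImplicit false

namespace Pool.Agent.Results.MP_9415b6_co.CyclicOneDesigns

open Finset

/-- `𝓑_k^x`: the `k`-element subsets of `ℤ_n` with sum `x`. -/
def blocks (n k : ℕ) [NeZero n] (x : ZMod n) : Finset (Finset (ZMod n)) :=
  univ.filter fun T => T.card = k ∧ ∑ t ∈ T, t = x

/-- `(ℤ_n, 𝓑_k^x)` is a `1`-design. -/
def IsOneDesign (n k : ℕ) [NeZero n] (x : ZMod n) : Prop :=
  (blocks n k x).Nonempty ∧ ∃ r : ℕ, ∀ y : ZMod n, ((blocks n k x).filter fun T => y ∈ T).card = r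

section
open Pool.Agent.Q127.OD

variable {n : ℕ} [NeZero n]

theorem cast_inj {i j : ℕ} (hi : i < n) (hj : j < n) (h : (i : ZMod n) = j) : i = j := by
  rw [ZMod.natCast_eq_natCast_iff'] at h
  rwa [Nat.mod_eq_of_lt hi, Nat.mod_eq_of_lt hj] at h

theorem count_eq {k : ℕ} (hk : 0 < k) (x y : ZMod n) :
    ((blocks n k x).filter fun T => y ∈ T).card = cntY n k (-x).val y.val := by
  have hn : 0 < n := NeZero.pos n
  unfold cntY
  symm
  refine card_bij (fun S _ => insert y (S.image fun i : ℕ => (i : ZMod n) + y)) ?_ ?_ ?_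
  · intro S hS
    rw [mem_filter, mem_powersetCard] at hS
    obtain ⟨⟨hS1, hS2⟩, hS3⟩ := hS
    have hinj : Set.InjOn (fun i : ℕ => (i : ZMod n) + y) S := by
      intro i hi j hj hij
      have h1 := mem_Ico.1 (hS1 hi)
      have h2 := mem_Ico.1 (hS1 hj)
      exact cast_inj h1.2 h2.2 (add_right_cancel hij)
    have hy : y ∉ S.image fun i : ℕ => (i : ZMod n) + y := by
      intro h
      obtain ⟨i, hi, hiy⟩ := mem_image.1 h
      have h1 := mem_Ico.1 (hS1 hi)
      have h2 : (i : ZMod n) = (0 : ℕ) := by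
        have : (i : ZMod n) = 0 := by simpa using hiy
        simpa using this
      have := cast_inj h1.2 hn h2
      omega
    unfold blocks
    rw [mem_filter, mem_filter]
    refine ⟨⟨mem_univ _, ?_, ?_⟩, mem_insert_self _ _⟩
    · rw [card_insert_of_notMem hy, card_image_of_injOn hinj, hS2]; omega
    · rw [sum_insert hy, sum_image hinj, sum_add_distrib, sum_const, hS2]
      have h1 : (((∑ i ∈ S, i) + k * y.val + (-x).val : ℕ) : ZMod n) = 0 :=
        (ZMod.natCast_eq_zero_iff _ _).2 hS3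
      push_cast at h1
      rw [ZMod.natCast_zmod_val, ZMod.natCast_zmod_val] at h1
      obtain ⟨k', rfl⟩ : ∃ k', k = k' + 1 := ⟨k - 1, by omega⟩
      rw [Nat.add_sub_cancel, nsmul_eq_mul]
      push_cast at h1
      linear_combination h1
  · intro S hS S' hS' h
    rw [mem_filter, mem_powersetCard] at hS hS'
    have key : ∀ S S' : Finset ℕ, S ⊆ Ico 1 n → S' ⊆ Ico 1 n →
        insert y (S.image fun i : ℕ => (i : ZMod n) + y)
          = insert y (S'.image fun i : ℕ => (i : ZMod n) + y) → S ⊆ S' := by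
      intro S S' h1 h2 h3 i hi
      have h4 : (i : ZMod n) + y ∈ insert y (S'.image fun i : ℕ => (i : ZMod n) + y) := by
        rw [← h3]
        exact mem_insert_of_mem (mem_image_of_mem _ hi)
      have hi' := mem_Ico.1 (h1 hi)
      rcases mem_insert.1 h4 with h5 | h5
      · have h6 : (i : ZMod n) = (0 : ℕ) := by
          have : (i : ZMod n) = 0 := by simpa using h5
          simpa using this
        have := cast_inj hi'.2 hn h6
        omega
      · obtain ⟨j, hj, hij⟩ := mem_image.1 h5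
        have hj' := mem_Ico.1 (h2 hj)
        have := cast_inj hj'.2 hi'.2 (add_right_cancel hij)
        rw [← this]; exact hj
    exact subset_antisymm (key S S' hS.1.1 hS'.1.1 h) (key S' S hS'.1.1 hS.1.1 h.symm)
  · intro T hT
    unfold blocks at hT
    rw [mem_filter, mem_filter] at hT
    obtain ⟨⟨_, hT1, hT2⟩, hyT⟩ := hT
    have hinj : Set.InjOn (fun t : ZMod n => (t - y).val) (T.erase y) := by
      intro a _ b _ hab
      exact sub_left_injective (ZMod.val_injective n hab)
    refine ⟨(T.erase y).image fun t => (t - y).val, ?_, ?_⟩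
    · rw [mem_filter, mem_powersetCard]
      refine ⟨⟨?_, ?_⟩, ?_⟩
      · intro i hi
        obtain ⟨t, ht, rfl⟩ := mem_image.1 hi
        rw [mem_erase] at ht
        rw [mem_Ico]
        refine ⟨?_, ZMod.val_lt _⟩
        rw [Nat.one_le_iff_ne_zero, Ne, ZMod.val_eq_zero]
        exact sub_ne_zero.2 ht.1
      · rw [card_image_of_injOn hinj, card_erase_of_mem hyT, hT1]
      · rw [sum_image hinj, ← ZMod.natCast_eq_zero_iff]
        push_cast
        simp_rw [ZMod.natCast_zmod_val]
        rw [sum_sub_distrib, sum_const, card_erase_of_mem hyT, hT1, nsmul_eq_mul]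
        have h1 : ∑ t ∈ T.erase y, t = x - y := by
          rw [← hT2, ← add_sum_erase T _ hyT]; ring
        rw [h1]
        obtain ⟨k', rfl⟩ : ∃ k', k = k' + 1 := ⟨k - 1, by omega⟩
        rw [Nat.add_sub_cancel]
        push_cast
        ring
    · rw [image_image]
      have h1 : ((T.erase y).image ((fun i : ℕ => (i : ZMod n) + y) ∘ fun t => (t - y).val))
          = T.erase y := by
        conv_rhs => rw [← image_id (s := T.erase y)]
        refine image_congr fun t _ => ?_
        simp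
      rw [h1]
      exact insert_erase hyT

theorem blocks_nonempty {k : ℕ} (hk : 0 < k) (hkn : k < n) (x : ZMod n) :
    (blocks n k x).Nonempty := by
  have hn : 0 < n := NeZero.pos n
  set b := ∑ i ∈ range k, i with hb
  -- s ≡ x - b mod n
  set s := (x - (b : ZMod n)).val with hs
  have hsn : s < n := ZMod.val_lt _
  have hle : s ≤ k * (n - k) := by
    obtain ⟨a, rfl⟩ : ∃ a, k = a + 1 := ⟨k - 1, by omega⟩
    obtain ⟨c, hc⟩ : ∃ c, n = a + 1 + 1 + c := ⟨n - (a + 1 + 1), by omega⟩
    have h1 : n - (a + 1) = c + 1 := by omega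
    rw [h1]
    nlinarith [Nat.zero_le (a * c)]
  obtain ⟨U, hU, hsum⟩ := cov n k s hkn.le hle
  rw [mem_powersetCard] at hU
  have hinj : Set.InjOn (fun i : ℕ => (i : ZMod n)) U := by
    intro i hi j hj hij
    exact cast_inj (mem_range.1 (hU.1 hi)) (mem_range.1 (hU.1 hj)) hij
  refine ⟨U.image fun i : ℕ => (i : ZMod n), ?_⟩
  unfold blocks
  rw [mem_filter]
  refine ⟨mem_univ _, ?_, ?_⟩
  · rw [card_image_of_injOn hinj, hU.2]
  · rw [sum_image hinj, ← Nat.cast_sum, hsum]
    push_cast
    rw [hs, ZMod.natCast_zmod_val, hb]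
    push_cast
    ring

end

/-- **Q1.** Determination of all `(n, k, x)` for which `(ℤ_n, 𝓑_k^x)` is a `1`-design. -/
theorem result (n k : ℕ) [NeZero n] (hk : 1 ≤ k) (hkn : k ≤ n) (x : ℤ) :
    IsOneDesign n k (x : ZMod n) ↔
      (k = n ∧ (n : ℤ) ∣ x - n * (n - 1) / 2) ∨
      (k < n ∧ ∀ p : ℕ, p.Prime → p ^ (k.factorization p + 1) ∣ n →
        ((p ^ k.factorization p : ℕ) : ℤ) ∣ x →
          let P := p ^ (k.factorization p + 1)
          let h := Nat.gcd k n / p ^ k.factorization p
          (k < P ∧ ¬ (h : ℤ) ∣ x) ∨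
          (n - k < P ∧ ¬ (h : ℤ) ∣ x - n * (n - 1) / 2) ∨
          (n = P * h ∧ P < k ∧ k < 2 * P ∧ (h : ℤ) ∣ x) ∨
          (n = P * h ∧ P < n - k ∧ n - k < 2 * P ∧ (h : ℤ) ∣ x - n * (n - 1) / 2)) := by
  have hn : 0 < n := NeZero.pos n
  -- the sum of all residues
  have hσ : ((∑ i ∈ range n, i : ℕ) : ℤ) = n * (n - 1) / 2 := by
    rw [sum_range_id]
    push_cast
    rw [Nat.cast_sub (by omega)]
    push_cast
    rfl
  set v := (-(x : ZMod n)).val with hv
  have hvx : ((v : ℤ) : ZMod n) = ((-x : ℤ) : ZMod n) := by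
    rw [hv]
    push_cast
    rw [ZMod.natCast_zmod_val]
  have hvn : (n : ℤ) ∣ (v : ℤ) + x := by
    rw [ZMod.intCast_eq_intCast_iff_dvd_sub] at hvx
    have : (v : ℤ) + x = -(-x - v) := by ring
    rw [this]
    exact (dvd_neg).2 hvx
  have hdv : ∀ d : ℕ, d ∣ n → ∀ s : ℕ, (d ∣ v + s ↔ (d : ℤ) ∣ x - s) := by
    intro d hd s
    have hd' : (d : ℤ) ∣ (v : ℤ) + x := (Int.natCast_dvd_natCast.2 hd).trans hvn
    rw [← Int.natCast_dvd_natCast]
    push_cast
    have h1 : (v : ℤ) + s = (v + x) - (x - s) := by ring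
    rw [h1]
    exact dvd_sub_right hd'
  rcases Nat.eq_or_lt_of_le hkn with heq | hlt
  · -- k = n
    subst heq
    have hsumuniv : (∑ t : ZMod k, t) = ((∑ i ∈ range k, i : ℕ) : ZMod k) := by
      push_cast
      symm
      refine sum_bij (fun i _ => (i : ZMod k)) (fun _ _ => mem_univ _) ?_ ?_ (fun _ _ => rfl)
      · intro i hi j hj hij
        exact cast_inj (mem_range.1 hi) (mem_range.1 hj) hij
      · intro t _
        exact ⟨t.val, mem_range.2 (ZMod.val_lt t), ZMod.natCast_zmod_val t⟩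
    have huniv : ∀ T : Finset (ZMod k), T.card = k ↔ T = univ := by
      intro T
      rw [← card_eq_iff_eq_univ, ZMod.card]
    have hiff : (k : ℤ) ∣ x - k * (k - 1) / 2 ↔ (∑ t : ZMod k, t) = (x : ZMod k) := by
      rw [← hσ, hsumuniv, ← ZMod.intCast_zmod_eq_zero_iff_dvd]
      push_cast
      rw [sub_eq_zero]
      exact eq_comm
    constructor
    · rintro ⟨⟨T, hT⟩, _⟩
      left
      refine ⟨rfl, hiff.2 ?_⟩
      unfold blocks at hT
      rw [mem_filter, huniv] at hT
      obtain ⟨_, rfl, h2⟩ := hT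
      exact h2
    · rintro (⟨_, h⟩ | ⟨h, _⟩)
      · have h' := hiff.1 h
        refine ⟨⟨univ, ?_⟩, 1, fun y => ?_⟩
        · unfold blocks
          rw [mem_filter]
          exact ⟨mem_univ _, (huniv _).2 rfl, h'⟩
        · rw [card_eq_one]
          refine ⟨univ, ?_⟩
          ext T
          unfold blocks
          rw [mem_filter, mem_filter, huniv, mem_singleton]
          constructor
          · rintro ⟨⟨_, h, _⟩, _⟩; exact h
          · rintro rfl; exact ⟨⟨mem_univ _, rfl, h'⟩, mem_univ _⟩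
      · exact absurd h (lt_irrefl _)
  · -- k < n
    have h1 : IsOneDesign n k (x : ZMod n) ↔
        ∃ r, ∀ y < n, Pool.Agent.Q127.OD.cntY n k v y = r := by
      unfold IsOneDesign
      constructor
      · rintro ⟨_, r, hr⟩
        refine ⟨r, fun y hy => ?_⟩
        have h2 := hr (y : ZMod n)
        rw [count_eq hk, ZMod.val_cast_of_lt hy] at h2
        exact h2
      · rintro ⟨r, hr⟩
        refine ⟨blocks_nonempty hk hlt _, r, fun y => ?_⟩
        rw [count_eq hk]
        exact hr _ (ZMod.val_lt y)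
    rw [h1, Pool.Agent.Q127.OD.const_iff hk hlt]
    constructor
    · intro h
      right
      refine ⟨hlt, fun p hp hP hpx => ?_⟩
      have hcn : p ^ k.factorization p ∣ n := (pow_dvd_pow p (by omega)).trans hP
      have hpv : p ^ k.factorization p ∣ v := by
        have := (hdv _ hcn 0).2 (by simpa using hpx)
        simpa using this
      have halt := h p hp hP hpv
      obtain ⟨h', _, _, _, hdiv, _, hhn, _⟩ := Pool.Agent.Q127.OD.basic hk hp hP
      unfold Pool.Agent.Q127.OD.Alt at halt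
      simp only at halt ⊢
      rw [hdiv] at halt ⊢
      have e1 : h' ∣ v ↔ (h' : ℤ) ∣ x := by simpa using hdv h' hhn 0
      have e2 : h' ∣ v + ∑ i ∈ range n, i ↔ (h' : ℤ) ∣ x - n * (n - 1) / 2 := by
        rw [← hσ]; exact hdv h' hhn _
      rw [e1, e2] at halt
      exact halt
    · rintro (⟨h, _⟩ | ⟨_, h⟩)
      · omega
      · intro p hp hP hpv
        have hcn : p ^ k.factorization p ∣ n := (pow_dvd_pow p (by omega)).trans hP
        have hpx : ((p ^ k.factorization p : ℕ) : ℤ) ∣ x := by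
          have := (hdv _ hcn 0).1 (by simpa using hpv)
          simpa using this
        have halt := h p hp hP hpx
        obtain ⟨h', _, _, _, hdiv, _, hhn, _⟩ := Pool.Agent.Q127.OD.basic hk hp hP
        unfold Pool.Agent.Q127.OD.Alt
        simp only at halt ⊢
        rw [hdiv] at halt ⊢
        have e1 : h' ∣ v ↔ (h' : ℤ) ∣ x := by simpa using hdv h' hhn 0
        have e2 : h' ∣ v + ∑ i ∈ range n, i ↔ (h' : ℤ) ∣ x - n * (n - 1) / 2 := by
          rw [← hσ]; exact hdv h' hhn _
        rw [e1, e2]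
        exact halt

end Pool.Agent.Results.MP_9415b6_co.CyclicOneDesigns
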